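import Pool.Agent.H211.CH.Stm

/-!
# CH211 C3: Chebyshev maps, down
-/

set_option autoImplicit false

open Polynomial

namespace Pool.Agent.H102.CH211

open Pool.Agent.H211.CH

universe u

section

variable {K : Type u} [Field K]

theorem dick_monic (n : ℕ) : (dickson 1 (1 : K) (n + 1)).Monic ∧
    (dickson 1 (1 : K) (n + 1)).natDegree = n + 1 ∧
    (dickson 1 (1 : K) (n + 2)).Monic ∧ (dickson 1 (1 : K) (n + 2)).natDegree = n + 2 := by
  induction n with
  | zero =>
    have h1 : dickson 1 (1 : K) (0 + 1) = X := dickson_one 1 1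
    have h2 : dickson 1 (1 : K) (0 + 2) = X ^ 2 + C (-2 : K) := by
      rw [zero_add, dickson_two]
      push_cast
      rw [C_1, C_neg]
      have : (C (2 : K) : K[X]) = 2 := rfl
      rw [this]
      ring
    rw [h1, h2]
    refine ⟨monic_X, natDegree_X, ?_, ?_⟩
    · exact monic_X_pow_add_C _ (by norm_num)
    · exact natDegree_X_pow_add_C
  | succ n ih =>
    obtain ⟨h1, h2, h3, h4⟩ := ih
    refine ⟨h3, h4, ?_⟩
    have e : dickson 1 (1 : K) (n + 1 + 2) = X * dickson 1 (1 : K) (n + 2) - dickson 1 (1 : K) (n + 1) := by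
      rw [dickson_add_two, C_1, one_mul]
    have hdX : (X * dickson 1 (1 : K) (n + 2)).natDegree = n + 1 + 2 := by
      rw [natDegree_X_mul h3.ne_zero, h4]
    have hmX : (X * dickson 1 (1 : K) (n + 2)).Monic := monic_X.mul h3
    have hlt : (dickson 1 (1 : K) (n + 1)).degree < (X * dickson 1 (1 : K) (n + 2)).degree := by
      rw [degree_eq_natDegree h1.ne_zero, degree_eq_natDegree hmX.ne_zero, hdX, h2]
      exact_mod_cast (by omega : n + 1 < n + 1 + 2)
    rw [e]
    constructor
    · exact hmX.sub_of_left hlt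
    · rw [natDegree_sub_eq_left_of_natDegree_lt, hdX]
      rw [hdX, h2]
      omega

theorem dick_monic' {n : ℕ} (hn : 1 ≤ n) : (dickson 1 (1 : K) n).Monic ∧
    (dickson 1 (1 : K) n).natDegree = n := by
  obtain ⟨m, rfl⟩ : ∃ m, n = m + 1 := ⟨n - 1, by omega⟩
  exact ⟨(dick_monic m).1, (dick_monic m).2.1⟩

theorem dick_sign (ε : K) (hε : ε * ε = 1) (Y : K[X]) (n : ℕ) :
    (dickson 1 (1 : K) n).comp (C ε * Y) = C (ε ^ n) * (dickson 1 (1 : K) n).comp Y ∧
    (dickson 1 (1 : K) (n + 1)).comp (C ε * Y) = C (ε ^ (n + 1)) * (dickson 1 (1 : K) (n + 1)).comp Y := by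
  induction n with
  | zero =>
    constructor
    · rw [dickson_zero, pow_zero, C_1, one_mul]
      simp
    · rw [zero_add, dickson_one, X_comp, X_comp, pow_one]
  | succ n ih =>
    obtain ⟨h1, h2⟩ := ih
    refine ⟨h2, ?_⟩
    have e : dickson 1 (1 : K) (n + 1 + 1) = X * dickson 1 (1 : K) (n + 1) - dickson 1 (1 : K) n := by
      rw [show n + 1 + 1 = n + 2 from rfl, dickson_add_two, C_1, one_mul]
    have e2 : ε ^ (n + 1 + 1) = ε ^ n := by
      rw [pow_succ, pow_succ, mul_assoc, hε, mul_one]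
    have e3 : C ε * (C (ε ^ (n + 1)) : K[X]) = C (ε ^ n) := by
      rw [← C_mul, pow_succ]
      congr 1
      calc ε * (ε ^ n * ε) = ε ^ n * (ε * ε) := by ring
        _ = ε ^ n := by rw [hε, mul_one]
    rw [e, sub_comp, sub_comp, mul_comp, mul_comp, X_comp, X_comp, h1, h2, e2, mul_sub]
    congr 1
    calc C ε * Y * (C (ε ^ (n + 1)) * (dickson 1 (1 : K) (n + 1)).comp Y)
        = (C ε * C (ε ^ (n + 1))) * (Y * (dickson 1 (1 : K) (n + 1)).comp Y) := by ring
      _ = _ := by rw [e3]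

theorem comp_cancel (A B T : K[X]) (hT : 0 < T.natDegree) (h : A.comp T = B.comp T) : A = B := by
  have h1 : (A - B).comp T = 0 := by rw [sub_comp, h, sub_self]
  have h2 : (A - B).natDegree = 0 := by
    have h3 : ((A - B).comp T).natDegree = 0 := by rw [h1, natDegree_zero]
    rw [natDegree_comp] at h3
    rcases Nat.mul_eq_zero.1 h3 with h4 | h4
    · exact h4
    · omega
  rw [eq_C_of_natDegree_eq_zero h2, C_comp] at h1
  have h4 : A - B = 0 := by rw [eq_C_of_natDegree_eq_zero h2, h1]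
  exact sub_eq_zero.1 h4

/-- the difference quotient -/
noncomputable def SS (F p u : K[X]) : K[X] :=
  ∑ k ∈ Finset.range (F.natDegree + 1), C (F.coeff k) * ∑ i ∈ Finset.range k, p ^ i * u ^ (k - 1 - i)

theorem SS_mul (F p u : K[X]) : F.comp p - F.comp u = SS F p u * (p - u) := by
  unfold SS
  rw [comp, comp, eval₂_eq_sum_range, eval₂_eq_sum_range, ← Finset.sum_sub_distrib, Finset.sum_mul]
  refine Finset.sum_congr rfl fun k _ => ?_
  rw [← mul_sub, mul_assoc, (Commute.all p u).geom_sum₂_mul]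

theorem SS_deg [CharZero K] (F p u : K[X]) (m D : ℕ) (hF : F.natDegree = D) (hD : 1 ≤ D)
    (hp : p.natDegree = m) (hu : u.natDegree = m) (hm : 1 ≤ m) (hl : p.leadingCoeff = u.leadingCoeff) :
    (SS F p u).natDegree = m * (D - 1) ∧ SS F p u ≠ 0 := by
  have hp0 : p ≠ 0 := by
    intro h
    rw [h, natDegree_zero] at hp
    omega
  have hu0 : u ≠ 0 := by
    intro h
    rw [h, natDegree_zero] at hu
    omega
  have hF0 : F ≠ 0 := by
    intro h
    rw [h, natDegree_zero] at hF
    omega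
  -- terms
  have hterm : ∀ k i : ℕ, i < k → (p ^ i * u ^ (k - 1 - i)).natDegree = m * (k - 1) ∧
      (p ^ i * u ^ (k - 1 - i)).coeff (m * (k - 1)) = p.leadingCoeff ^ (k - 1) := by
    intro k i hik
    have h1 : (p ^ i * u ^ (k - 1 - i)).natDegree = m * (k - 1) := by
      rw [natDegree_mul (pow_ne_zero _ hp0) (pow_ne_zero _ hu0), natDegree_pow, natDegree_pow, hp, hu,
        ← add_mul, mul_comm]
      congr 1
      omega
    refine ⟨h1, ?_⟩
    have h2 : (p ^ i * u ^ (k - 1 - i)).coeff (m * (k - 1)) = (p ^ i * u ^ (k - 1 - i)).leadingCoeff := by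
      rw [leadingCoeff, h1]
    rw [h2, leadingCoeff_mul, leadingCoeff_pow, leadingCoeff_pow, ← hl, ← pow_add]
    congr 1
    omega
  have hG : ∀ k : ℕ, (∑ i ∈ Finset.range k, p ^ i * u ^ (k - 1 - i)).natDegree ≤ m * (k - 1) := by
    intro k
    exact natDegree_sum_le_of_forall_le _ _ fun i hi => (hterm k i (Finset.mem_range.1 hi)).1.le
  have hle : (SS F p u).natDegree ≤ m * (D - 1) := by
    unfold SS
    refine natDegree_sum_le_of_forall_le _ _ fun k hk => ?_
    have hk' := Finset.mem_range.1 hk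
    refine (natDegree_C_mul_le _ _).trans ((hG k).trans ?_)
    exact Nat.mul_le_mul_left _ (by omega)
  have hco : (SS F p u).coeff (m * (D - 1)) = F.leadingCoeff * (D * p.leadingCoeff ^ (D - 1)) := by
    have hFl : F.leadingCoeff = F.coeff D := by rw [leadingCoeff, hF]
    unfold SS
    rw [hF, hFl, finsetSum_coeff, Finset.sum_range_succ, Finset.sum_eq_zero, zero_add, coeff_C_mul,
      finsetSum_coeff, Finset.sum_congr rfl (fun i hi => (hterm D i (Finset.mem_range.1 hi)).2),
      Finset.sum_const, Finset.card_range, nsmul_eq_mul]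
    intro k hk
    have hk' := Finset.mem_range.1 hk
    rw [coeff_C_mul]
    rcases Nat.eq_zero_or_pos k with h | h
    · subst h
      rw [Finset.range_zero, Finset.sum_empty, coeff_zero, mul_zero]
    · have h5 : (∑ i ∈ Finset.range k, p ^ i * u ^ (k - 1 - i)).coeff (m * (D - 1)) = 0 :=
        coeff_eq_zero_of_natDegree_lt (lt_of_le_of_lt (hG k)
          ((Nat.mul_lt_mul_left (by omega)).2 (by omega)))
      rw [h5, mul_zero]
  have hne : (SS F p u).coeff (m * (D - 1)) ≠ 0 := by
    rw [hco]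
    refine mul_ne_zero (leadingCoeff_ne_zero.2 hF0) (mul_ne_zero ?_ (pow_ne_zero _ (leadingCoeff_ne_zero.2 hp0)))
    exact_mod_cast (by omega : D ≠ 0)
  refine ⟨le_antisymm hle (le_natDegree_of_ne_zero hne), ?_⟩
  intro h
  rw [h, coeff_zero] at hne
  exact hne rfl

theorem t_C3 {K : Type u} [Field K] [IsAlgClosed K] [CharZero K] : S_C3 K := by
  intro F p ε D hD hε hp hcomp
  have hε2 : ε * ε = 1 := by rcases hε with rfl | rfl <;> ring
  have hε0 : ε ≠ 0 := by
    intro h; rw [h, mul_zero] at hε2; exact zero_ne_one hε2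
  obtain ⟨m, hm⟩ : ∃ m, m = p.natDegree := ⟨_, rfl⟩
  rw [← hm] at hp ⊢
  obtain ⟨T, hT⟩ : ∃ T, T = dickson 1 (1 : K) m := ⟨_, rfl⟩
  obtain ⟨TD, hTD⟩ : ∃ TD, TD = dickson 1 (1 : K) D := ⟨_, rfl⟩
  obtain ⟨hTm, hTd⟩ : T.Monic ∧ T.natDegree = m := by rw [hT]; exact dick_monic' hp
  obtain ⟨hDm, hDd⟩ : TD.Monic ∧ TD.natDegree = D := by rw [hTD]; exact dick_monic' (by omega)
  have hcommT : T.comp TD = TD.comp T := by rw [hT, hTD]; exact dickson_one_one_comp_comm _ _ _
  rw [← hTD] at hcomp ⊢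
  rw [← hT]
  have hsign : T.comp (C ε * TD) = C (ε ^ m) * T.comp TD := by
    rw [hT]; exact (dick_sign ε hε2 TD m).1
  have hYd : (C ε * TD).natDegree = D := by rw [natDegree_C_mul hε0, hDd]
  have hFd : F.natDegree = D := by
    have h1 := congrArg natDegree hcomp
    rw [natDegree_comp, natDegree_comp, hYd, ← hm, mul_comm] at h1
    exact Nat.eq_of_mul_eq_mul_left hp h1
  obtain ⟨α, hα⟩ : ∃ α, α = p.leadingCoeff := ⟨_, rfl⟩
  have hp0 : p ≠ 0 := by
    intro h; rw [h, natDegree_zero] at hm; omega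
  have hα0 : α ≠ 0 := by rw [hα]; exact leadingCoeff_ne_zero.2 hp0
  obtain ⟨r, hr⟩ : ∃ r, r = p - C α * T := ⟨_, rfl⟩
  have hud : (C α * T).natDegree = m := by rw [natDegree_C_mul hα0, hTd]
  have hul : (C α * T).leadingCoeff = α := by
    rw [leadingCoeff_mul, leadingCoeff_C, hTm.leadingCoeff, mul_one]
  have hu0 : C α * T ≠ 0 := mul_ne_zero (C_ne_zero.2 hα0) hTm.ne_zero
  -- the remainder is constant
  have hr0 : r.natDegree = 0 := by
    by_contra hj
    have hj1 : 1 ≤ r.natDegree := by omega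
    have hrne : r ≠ 0 := by
      intro h; rw [h, natDegree_zero] at hj1; omega
    have hjm : r.natDegree < m := by
      have h1 : r.degree < p.degree := by
        rw [hr]
        refine degree_sub_lt_left ?_ hp0 ?_
        · rw [degree_eq_natDegree hp0, degree_eq_natDegree hu0, hud, ← hm]
        · rw [hul, hα]
      rw [degree_eq_natDegree hrne, degree_eq_natDegree hp0, ← hm] at h1
      exact_mod_cast h1
    obtain ⟨hSd, hS0⟩ := SS_deg F p (C α * T) m D hFd (by omega) hm.symm hud hp (by rw [hul, hα])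
    have hmul := SS_mul F p (C α * T)
    rw [← hr] at hmul
    obtain ⟨S, hS⟩ : ∃ S, S = SS F p (C α * T) := ⟨_, rfl⟩
    rw [← hS] at hSd hS0 hmul
    -- the left side
    have hQ : (F.comp (C α * X) - C (α * ε ^ m) * TD).comp T = r.comp (C ε * TD) - S * r := by
      have e1 : (F.comp (C α * X)).comp T = F.comp (C α * T) := by
        rw [comp_assoc, mul_comp, C_comp, X_comp]
      have e2 : p.comp (C ε * TD) = C α * (C (ε ^ m) * T.comp TD) + r.comp (C ε * TD) := by
        have : p = C α * T + r := by rw [hr]; ring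
        conv_lhs => rw [this]
        rw [add_comp, mul_comp, C_comp, hsign]
      rw [sub_comp, e1, mul_comp, C_comp, ← hcommT, C_mul]
      have e3 : F.comp (C α * T) = F.comp p - S * r := by rw [← hmul]; ring
      rw [e3, hcomp, e2]
      ring
    have hd1 : (r.comp (C ε * TD)).natDegree = r.natDegree * D := by rw [natDegree_comp, hYd]
    have hd2 : (S * r).natDegree = m * (D - 1) + r.natDegree := by
      rw [natDegree_mul hS0 hrne, hSd]
    have hlt : (r.comp (C ε * TD)).natDegree < (S * r).natDegree := by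
      rw [hd1, hd2]
      obtain ⟨D', rfl⟩ : ∃ D', D = D' + 2 := ⟨D - 2, by omega⟩
      have e : D' + 2 - 1 = D' + 1 := by omega
      rw [e]
      nlinarith
    have hd3 := congrArg natDegree hQ
    rw [natDegree_comp, hTd, natDegree_sub_eq_right_of_natDegree_lt hlt, hd2] at hd3
    have hdvd : m ∣ r.natDegree := by
      have h1 : m ∣ m * (D - 1) + r.natDegree := ⟨_, by rw [← hd3, mul_comm]⟩
      exact (Nat.dvd_add_right (Dvd.intro _ rfl)).1 h1
    exact absurd (Nat.le_of_dvd hj1 hdvd) (by omega)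
  obtain ⟨c₀, hc₀⟩ : ∃ c₀, r = C c₀ := ⟨_, eq_C_of_natDegree_eq_zero hr0⟩
  have hpe : p = C α * T + C c₀ := by rw [← hc₀, hr]; ring
  refine ⟨α, c₀, hα0, hpe, ?_⟩
  apply comp_cancel _ _ T (by rw [hTd]; exact hp)
  have e1 : (F.comp (C α * X + C c₀)).comp T = F.comp p := by
    rw [comp_assoc, add_comp, mul_comp, C_comp, C_comp, X_comp, ← hpe]
  rw [e1, hcomp, comp_assoc]
  have e2 : (C (ε ^ m) * TD).comp T = C (ε ^ m) * T.comp TD := by
    rw [mul_comp, C_comp, hcommT]
  rw [e2, ← hsign]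
  conv_lhs => rw [hpe]
  rw [add_comp, mul_comp, C_comp, C_comp, add_comp, mul_comp, C_comp, C_comp, X_comp]

end

end Pool.Agent.H102.CH211
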